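import Pool.Agent.H93.DP.Final2
set_option autoImplicit false

/-!
# A deterministic pivot rule with at most `2100 * 1.6026 ^ n` steps on abstract cubes

Let `f` be an injective function on the vertices of the `n`-cube with exactly one local maximum on
every face. There is a deterministic rule which sees the visited vertices and their sets of improving
directions, moves along one improving edge in each step, and reaches the maximum of every such `f`
after at most `2100 * 1.6026 ^ n` steps.

The proof. (1) If `f x < f y` then some direction `i` with `x i ≠ y i` is improving at `x` and not
at `y`: let `A` be the set of the directions which separate `x` and `y` and are improving at `x`, and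
let `z` be `y` with the directions in `A` switched. Then `x` is the maximum of the face spanned by
`x` and `z`, and if all directions of `A` are improving at `y` then `y` is the only source of the face
spanned by `y` and `z`, so `f y ≤ f z ≤ f x`. (2) So a rule which wins the game `Win` against an
adversary, who may answer by all sets which are compatible with (1), is a pivot rule. (3) Let `k`
further directions be given. In a run the rule plays the strategy for the first `n` directions and a
set `J` of further directions, and it crosses each of the directions of a set `P` of other
directions once, as soon as it is improving; after that it is not used any more in this run. The
answers remain compatible for the strategy, so the run ends at a vertex without improving direction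
among the `n` directions and `J`. Then the next move is made in one of the other directions and a new
run starts. (4) The vertices at the ends of the runs are played in the game `MacV` on the `k`-cube. A
run costs as much as the game on the `(n + j)`-cube, `j` the size of `J`. (5) For `k = 5` the
rule needs the cost of at most `8` runs with `j = 0` and one run with `j = 2`, or less for this
growth rate: `x ^ 5 = 8 + x ^ 2` for `x = 1.6025…`. The certificate has 377 entries.
-/

namespace Pool.Agent.Results.MP_4d246d_lc.DeterministicUpperBound

open Pool.Agent.H93.DP

/-- **A deterministic pivot rule.** For every `n ≥ 1` there is a rule which sees the list of the pairs
(visited vertex of the `n`-cube, its set of improving directions), the current one first, and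
names an improving direction, such that for every injective function `f` on the vertices with
exactly one local maximum on every face and every start vertex the walk `w` of the rule reaches the
maximum of `f` after at most `2100 * 1.6026 ^ n` steps. -/
theorem result (n : ℕ) (hn : 0 < n) :
    ∃ rule : List ((Fin n → Bool) × Finset (Fin n)) → Fin n,
      (∀ (x : Fin n → Bool) (S : Finset (Fin n)) (l : List ((Fin n → Bool) × Finset (Fin n))),
        S.Nonempty → rule ((x, S) :: l) ∈ S) ∧
      ∀ (f : (Fin n → Bool) → ℝ), Function.Injective f → OneMax f →
        ∀ w : ℕ → Fin n → Bool,
          (∀ t, (improving f (w t)).Nonempty → w (t + 1) = flip (w t) (rule (seen f w t))) →
          ∃ L : ℕ, (L : ℝ) ≤ 2100 * 1.6026 ^ n ∧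
            (∀ t < L, (improving f (w t)).Nonempty) ∧ improving f (w L) = ∅ ∧
            ∀ x, f x ≤ f (w L) :=
  exists_fast_rule2 n hn

end Pool.Agent.Results.MP_4d246d_lc.DeterministicUpperBound
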