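import Pool.Agent.H38.MonoData

/-!
# Linear programs on which every run of the simplex method is long: the ratio 4/3

For every `k` there is a linear program with `6 k` variables and `6 k` inequalities `A x ≤ b`
(besides `x ≥ 0`), with bounded feasible region, on which every run of every version of the simplex
method from the vertex `0` needs at least `8 k` steps, and some run needs exactly `8 k`.

A version of the simplex method is any way of choosing the next vertex; the statement quantifies
over all runs, that is over all sequences of vertices which it could produce.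
-/

namespace Pool.Agent.Results.MP_4d246d_lc.MonotoneHirschRatio

/-- The feasible region `P = {x | A x ≤ b, x ≥ 0}`. -/
def feasible {m n : ℕ} (A : Matrix (Fin m) (Fin n) ℤ) (b : Fin m → ℤ) : Set (Fin n → ℝ) :=
  {x | (∀ j, 0 ≤ x j) ∧ ∀ i, ∑ j, (A i j : ℝ) * x j ≤ (b i : ℝ)}

/-- The objective function `f x = cᵀ x`. -/
def objective {n : ℕ} (c : Fin n → ℤ) (x : Fin n → ℝ) : ℝ := ∑ j, (c j : ℝ) * x j

/-- A step of the simplex method: `x` and `y` are vertices of `P` (extreme points), they are joined
by an edge of `P` (the segment between them is a face), and `f x < f y`. -/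
def IsStep {m n : ℕ} (A : Matrix (Fin m) (Fin n) ℤ) (b : Fin m → ℤ) (c : Fin n → ℤ)
    (x y : Fin n → ℝ) : Prop :=
  x ∈ (feasible A b).extremePoints ℝ ∧ y ∈ (feasible A b).extremePoints ℝ ∧
    IsExtreme ℝ (feasible A b) (segment ℝ x y) ∧ objective c x < objective c y

/-- A run of the simplex method with `N` steps: it visits the vertices `x 0, …, x N`, and `x N`
maximises `f` over `P`. -/
def IsRun {m n : ℕ} (A : Matrix (Fin m) (Fin n) ℤ) (b : Fin m → ℤ) (c : Fin n → ℤ)
    (x : ℕ → Fin n → ℝ) (N : ℕ) : Prop :=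
  (∀ t < N, IsStep A b c (x t) (x (t + 1))) ∧
    ∀ z ∈ feasible A b, objective c z ≤ objective c (x N)

open Pool.Agent.H38.Mono in
/-- For every `k` there is a linear program `max cᵀ x`, `A x ≤ b`, `x ≥ 0` with `6 k` rows, `6 k`
variables, `b > 0` and bounded feasible region, such that every run of the simplex method from the
vertex `0` needs at least `8 k` steps, and some run needs exactly `8 k`. -/
theorem result (k : ℕ) : ∃ (A : Matrix (Fin (k * 6)) (Fin (k * 6)) ℤ) (b c : Fin (k * 6) → ℤ),
    (∀ i, 0 < b i) ∧ Bornology.IsBounded (feasible A b) ∧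
    (0 : Fin (k * 6) → ℝ) ∈ (feasible A b).extremePoints ℝ ∧
    (∀ (x : ℕ → Fin (k * 6) → ℝ) (N : ℕ), x 0 = 0 → IsRun A b c x N → k * 8 ≤ N) ∧
    ∃ x : ℕ → Fin (k * 6) → ℝ, x 0 = 0 ∧ IsRun A b c x (k * 8) := by
  have hT : ∀ v ∈ Data.T, vtxOK 6 (6 + 6) (mkD 6 Data.rows Data.rhs Data.cost) Data.T v = true :=
    List.all_eq_true.1 Data.T_ok
  have hmem : Data.v0 ∈ Data.T := List.mem_cons_self
  obtain ⟨h1, h2, h3⟩ := main 6 6 k Data.rows Data.rhs Data.cost hT hmem (by decide) (by decide)
  refine ⟨bigA k (matL 6 6 Data.rows), bigv k (vecL 6 Data.rhs), bigv k (vecL 6 Data.cost),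
    fun i => Data.rhs_pos _, ?_, h1, ?_, ?_⟩
  · have := bounded_of k (matL 6 6 Data.rows) (vecL 6 Data.rhs) (vecL 6 Data.mult)
      Data.mult_nonneg Data.mult_col
    rwa [← feasible_big] at this
  · rintro x N hx ⟨hs, hm⟩
    exact h2 N x hx hs hm
  · obtain ⟨x, hx, hs, hm⟩ := h3
    exact ⟨x, hx, hs, hm⟩

end Pool.Agent.Results.MP_4d246d_lc.MonotoneHirschRatio
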