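import Pool.Agent.H80.SP.Fin
import Pool.Agent.H80.SP.Edge
set_option autoImplicit false

/-!
# Random-Edge on simple polytopes

`Poly A b` is the polyhedron of the `x` in dimension `d` with `A i ⬝ᵥ x ≤ b i` for all `i`.  It is
assumed to be nondegenerate (every vertex has exactly `d` tight constraints) and to have at most
`k` pairwise adjacent vertices; for `k = 2` this says that it has no triangular face.  Adjacent
vertices are defined by `d - 1` common tight constraints; by the theorem `adjacent_iff` these are the
pairs of vertices which are joined by an edge.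

Part 1: if the polyhedron is bounded, every linear function which is not constant on an edge is an
abstract objective function, which means that it has at most one local maximum on every face.

Part 2: if the polyhedron is bounded and `f` is an abstract objective function, Random-Edge makes at
most `C * ((1 + ε) * (z + (1 - z) * k ^ (- 1 / (k - 1)))) ^ d` expected steps per vertex of the
polytope, where `z = k ^ (- 2 / (k - 1))`.  For `k = 2` the base is `5 / 8`, so for combinatorial
`d`-cubes the number of steps is at most `C * ((1 + ε) * 5 / 4) ^ d`.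

Part 3: for abstract objective functions on polyhedra with `m` constraints, bounded or not,
Random-Edge makes at most `C * (1 + ε) ^ d * (1 / (1 - z)) ^ (m - d)` expected steps; for `k = 2` the
base is `4 / 3`.

Part 4 is for arbitrary functions on the vertices of bounded or unbounded polyhedra, part 5 for every
randomised rule with memory which chooses each of the improving neighbours, whose number is
`(improving A b f x).card`, with probability at most `ρ` divided by this number.

The proof.  The new step is an inequality for the entropy of measures `g` on the vertices: the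
maximal sets of pairwise adjacent vertices partition the edges, and the entropies
`(∑ g) log (∑ g) - ∑ g log g` of `g` on these sets add up to at most the one on all vertices.  It is
proved by splitting the support of `g` by the facets: a vertex in a facet has at most one neighbour
outside, and the neighbours in the facet of a vertex outside are pairwise adjacent.  We follow the
walk for a window of polynomial length and weigh the time geometrically; the inequality shows that
the resulting almost stationary measure is spread out, so that the walk, since it increases `f`, skips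
in each window about `z ^ (- l)` of the vertices with about `l` improving neighbours.  For the
parts 2 and 3 we count the faces by their local maxima, and for part 2 the pairs of a face and a
vertex of it; by the same inequality a face of dimension `j` has at least `k ^ (j / (k - 1))`
vertices.
-/

namespace Pool.Agent.Results.MP_4d246d_lc.RandomEdgePolytopes

open Pool.Agent.H80.SP Finset Matrix

theorem result (k : ℕ) (hk : 2 ≤ k) :
    (∀ (d m : ℕ) (A : Fin m → Fin d → ℝ) (b : Fin m → ℝ), Bornology.IsBounded (Poly A b) →
      Nondegenerate A b → ∀ c : Fin d → ℝ,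
      (∀ v ∈ vertices A b, ∀ w ∈ vertices A b, Adjacent A b v w → c ⬝ᵥ v ≠ c ⬝ᵥ w) →
      OneMax A b fun x => c ⬝ᵥ x) ∧
    (∀ ε : ℝ, 0 < ε → ∃ C : ℝ, ∀ (d m : ℕ) (A : Fin m → Fin d → ℝ) (b : Fin m → ℝ),
      Bornology.IsBounded (Poly A b) → Nondegenerate A b → CliqueLE A b k →
      ∀ f : (Fin d → ℝ) → ℝ, OneMax A b f →
      ∀ T : (Fin d → ℝ) → ℝ, RandomEdge A b f T → ∀ x ∈ vertices A b,
        T x ≤ C * ((1 + ε) * ((k : ℝ) ^ (-(2 / ((k : ℝ) - 1))) +
          (1 - (k : ℝ) ^ (-(2 / ((k : ℝ) - 1)))) * (k : ℝ) ^ (-(1 / ((k : ℝ) - 1))))) ^ d *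
          (vertices A b).card) ∧
    (∀ ε : ℝ, 0 < ε → ∃ C : ℝ, ∀ (d m : ℕ) (A : Fin m → Fin d → ℝ) (b : Fin m → ℝ),
      Nondegenerate A b → CliqueLE A b k → ∀ f : (Fin d → ℝ) → ℝ, OneMax A b f →
      ∀ T : (Fin d → ℝ) → ℝ, RandomEdge A b f T → ∀ x ∈ vertices A b,
        T x ≤ C * (1 + ε) ^ d * (1 / (1 - (k : ℝ) ^ (-(2 / ((k : ℝ) - 1))))) ^ (m - d)) ∧
    (∀ ε : ℝ, 0 < ε → ∃ C : ℝ, ∀ (d m : ℕ) (A : Fin m → Fin d → ℝ) (b : Fin m → ℝ),
      Nondegenerate A b → CliqueLE A b k → ∀ f T : (Fin d → ℝ) → ℝ, RandomEdge A b f T →
      ∀ x ∈ vertices A b, T x ≤ C * (1 + ε) ^ d * ∑ v ∈ vertices A b,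
        ((k : ℝ) ^ (-(2 / ((k : ℝ) - 1)))) ^ (improving A b f v).card) ∧
    (∀ ρ ε : ℝ, 1 ≤ ρ → 0 < ε → ∃ C : ℝ, ∀ (d m : ℕ) (A : Fin m → Fin d → ℝ) (b : Fin m → ℝ),
      Nondegenerate A b → CliqueLE A b k → ∀ (f : (Fin d → ℝ) → ℝ)
      (p : List (Fin d → ℝ) → (Fin d → ℝ) → ℝ), (∀ h y, 0 ≤ p h y) →
      (∀ x ∈ vertices A b, ∀ h, ∑ y ∈ improving A b f x, p (x :: h) y ≤ 1) →
      (∀ x ∈ vertices A b, ∀ h, ∀ y ∈ improving A b f x,
        p (x :: h) y * (improving A b f x).card ≤ ρ) →
      ∀ x ∈ vertices A b, ∀ N : ℕ, ∑ t ∈ range N, prob A b f p (t + 1) [] x ≤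
        C * (1 + ε) ^ d * ∑ v ∈ vertices A b,
          ((k : ℝ) ^ (-(2 / (((k : ℝ) - 1) * ρ)))) ^ (improving A b f v).card) :=
  ⟨fun _ _ _ _ hbd hnd c hc => oneMax_linear hbd hnd c hc, fun _ hε => poly_bound hk hε,
    fun _ hε => size_bound hk hε, fun _ hε => edge_bound hk hε, fun _ _ hρ hε => rule_bound hk hρ hε⟩

end Pool.Agent.Results.MP_4d246d_lc.RandomEdgePolytopes
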