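import Pool.Agent.H10.RR.Main
set_option autoImplicit false

/-!
# Rules which now and then follow a random priority rule

`flip x i` is the neighbour of the vertex `x` of the `n`-cube in direction `i`, and `improving f x` the
set of directions `i` with `f x < f (flip x i)`. A randomised pivot rule sees the list of triples (visited
vertex, its objective value, its set of improving directions), the current one first, and chooses one of
the improving directions at random; `p l i` is the probability of the direction `i` when `l` is seen. These
probabilities may depend on all that was seen in any way. `prob f p T x l` is the probability of at least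
`T` further steps from `x` when `l` was seen before.

Weights `ρ S i ≥ 0` of the elements `i` of the sets `S` of directions are *regular* if a further
improving direction makes no improving direction heavier (`ρ T i ≤ ρ S i` for `i ∈ S ⊆ T`) and does not
make the sum of the weights smaller, and the sum is at least `1` if `S` has at least `n / 2` elements.
Examples are all memoryless rules (`ρ S i` is the probability of `i` if `S` is the set of improving
directions) for which further improving directions do not make an improving direction more probable:
Random-Edge; Bland's rule for any order of the directions; every rule which chooses `i` with a probability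
proportional to a weight of `i`; every *random priority rule*, which draws at each step a priority list of
the directions from any fixed probability distribution on the `n!` lists and follows the first improving
direction on the list (`regular_lists`); all mixtures of such rules. Another example are the constant
weights `ρ S i = 2 / n` (`regular_const`).

The theorem is about all rules with unlimited memory for which the probability of every improving
direction `i` is always at least `ρ S i / β`; for instance those which follow a random priority rule with
a probability of at least `1 / β`, and do whatever they like otherwise, and those for which all improving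
directions have a probability of at least `2 / (β n)`. They need at least `2 ^ k` steps if
`n ≥ 330000 β k² (k + log₂ n)`.

Proof. The directions are divided into levels with `64 q` directions each (and a rest) such that, whenever
more than `q` directions of a level are improving, the improving directions of each level above it are
together at most `θ` times as probable as all improving directions below that level. For this, a *batch*
in a set `N` of directions is a set `B ⊆ N` with `ρ N y ≥ 1 / (2 Λ |B|)` and `ρ N y ≥ 1 / (2 n)` for all
`y ∈ B`, `Λ = log₂ n + 2`; it exists if `|N| ≥ n / 2` since then the weights add up to at least `1`. The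
lowest level consists of successive batches, the next level of further batches and so on. More than `q` of
its `64 q` elements contain the `128`th part of a batch or `q / 2` elements of the last one, and by
regularity they are noticeably heavy in the presence of all directions of the upper levels. In every such
situation the doubling construction of `K4H94.SX` (absorbing Hamming balls around hidden random points,
fresh random targets) works with the levels as groups; it is carried out here for flows with a general
ratio condition.
-/

namespace Pool.Agent.Results.MP_4d246d_lc.RegularRules

open Finset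

/-- the neighbour of the vertex `x` in direction `i` -/
def flip {n : ℕ} (x : Fin n → Bool) (i : Fin n) : Fin n → Bool := Function.update x i (!x i)

/-- the improving directions at the vertex `x` -/
def improving {n : ℕ} (f : (Fin n → Bool) → ℕ) (x : Fin n → Bool) : Finset (Fin n) :=
  univ.filter fun i => f x < f (flip x i)

/-- `prob f p T x l` is the probability that the rule `p` makes at least `T` further steps from the
vertex `x` when it has seen `l` before: it sees `(x, f x, improving f x)` and moves to `flip x i` with
probability `p ((x, f x, improving f x) :: l) i`, and it stops if there is no improving direction. -/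
noncomputable def prob {n : ℕ} (f : (Fin n → Bool) → ℕ)
    (p : List ((Fin n → Bool) × ℕ × Finset (Fin n)) → Fin n → ℝ) :
    ℕ → (Fin n → Bool) → List ((Fin n → Bool) × ℕ × Finset (Fin n)) → ℝ
  | 0, _, _ => 1
  | T + 1, x, l => ∑ i ∈ improving f x, p ((x, f x, improving f x) :: l) i *
      prob f p T (flip x i) ((x, f x, improving f x) :: l)

/-- Regular weights `ρ S i` of the elements `i` of the sets `S` of improving directions: they do not
increase, and their sum does not decrease, when there are further improving directions; and the sum is at
least `1` if at least `n / 2` directions are improving. -/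
structure Regular {n : ℕ} (ρ : Finset (Fin n) → Fin n → ℝ) : Prop where
  nonneg : ∀ S i, 0 ≤ ρ S i
  anti : ∀ S T : Finset (Fin n), S ⊆ T → ∀ i ∈ S, ρ T i ≤ ρ S i
  mono : ∀ S T : Finset (Fin n), S ⊆ T → ∑ i ∈ S, ρ S i ≤ ∑ i ∈ T, ρ T i
  big : ∀ S : Finset (Fin n), n ≤ 2 * S.card → 1 ≤ ∑ i ∈ S, ρ S i

/-- The random priority rules are regular: a priority list `σ` (the direction `i` has the position
`σ i`) is drawn with the probability `μ σ`, and the first improving direction on the list is chosen. -/
theorem regular_lists {n : ℕ} (hn : 0 < n) (μ : Equiv.Perm (Fin n) → ℝ) (h0 : ∀ σ, 0 ≤ μ σ)
    (h1 : ∑ σ, μ σ = 1) : Regular (fun (S : Finset (Fin n)) (i : Fin n) =>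
      ∑ σ : Equiv.Perm (Fin n), if i ∈ S ∧ ∀ j ∈ S, σ i ≤ σ j then μ σ else 0) :=
  have h := H10.RR.reg_of_choice hn (ρ := fun (S : Finset (Fin n)) (i : Fin n) =>
      ∑ σ : Equiv.Perm (Fin n), if i ∈ S ∧ ∀ j ∈ S, σ i ≤ σ j then μ σ else 0)
    (fun S i => Finset.sum_nonneg fun σ _ => by split_ifs; exacts [h0 σ, le_rfl])
    (H10.RR.choice_lists μ h1) (fun S T hST i hi => H10.RR.anti_lists μ h0 S T hST i hi)
  ⟨h.nonneg, h.anti, h.mono, h.big⟩

/-- The constant weights `2 / n` are regular. -/
theorem regular_const {n : ℕ} (hn : 0 < n) :
    Regular (fun (_ : Finset (Fin n)) (_ : Fin n) => 2 / (n : ℝ)) := by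
  have hn' : (0 : ℝ) < n := by exact_mod_cast hn
  refine ⟨fun _ _ => by positivity, fun _ _ _ _ _ => le_rfl, ?_, ?_⟩
  · intro S T hST
    exact Finset.sum_le_sum_of_subset_of_nonneg hST fun _ _ _ => by positivity
  · intro S hS
    rw [Finset.sum_const, nsmul_eq_mul, mul_div_assoc', le_div_iff₀ hn', one_mul]
    have : (n : ℝ) ≤ 2 * S.card := by exact_mod_cast hS
    linarith

theorem prob_eq {n : ℕ} (f : (Fin n → Bool) → ℕ)
    (p : List ((Fin n → Bool) × ℕ × Finset (Fin n)) → Fin n → ℝ) (T : ℕ) (x : Fin n → Bool)
    (l : List ((Fin n → Bool) × ℕ × Finset (Fin n))) :
    prob f p T x l = K4H94.SX.prob f p T x l := by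
  induction T generalizing x l with
  | zero => rw [prob, K4H94.SX.prob]
  | succ T ih =>
    rw [prob, K4H94.SX.prob]
    refine sum_congr rfl fun i _ => ?_
    rw [ih]
    rfl

/-- **Rules which now and then follow a random priority rule are exponential on abstract objective
functions.** A rule sees the list of triples (visited vertex, its objective value, its set of improving
directions), the current one first; `p l i` is the probability with which it chooses the direction `i`
when it sees `l`. Let `k, β ≥ 1` and `n ≥ 330000 β k ^ 2 (k + ⌊log₂ n⌋)`. Assume that for some regular
weights `ρ` (for instance the probabilities of a rule which follows the first improving direction on a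
priority list which is drawn anew at each step from some distribution on the `n!` lists) the probability
of every improving direction `i` is always at least `ρ S i / β`, where `S` is the set of improving
directions.

Then for every start vertex `x₀` of the `n`-cube there is an injective objective function `f` with
exactly one local maximum on every face (so that increasing paths of at most `n` steps lead from every
vertex to the maximum) on which the rule, started at `x₀`, makes at least `2 ^ k` steps with a probability
of at least `1 - 2 ^ (-k)`. -/
theorem result (n k β : ℕ) (hk : 1 ≤ k) (hβ : 1 ≤ β)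
    (hn : 330000 * β * k ^ 2 * (k + Nat.log 2 n) ≤ n)
    (p : List ((Fin n → Bool) × ℕ × Finset (Fin n)) → Fin n → ℝ)
    (hp0 : ∀ l i, 0 ≤ p l i)
    (hp1 : ∀ x c S l, S.Nonempty → ∑ i ∈ S, p ((x, c, S) :: l) i = 1)
    (ρ : Finset (Fin n) → Fin n → ℝ) (hρ : Regular ρ)
    (hp : ∀ x c S l, ∀ i ∈ S, ρ S i ≤ β * p ((x, c, S) :: l) i)
    (x₀ : Fin n → Bool) :
    ∃ f : (Fin n → Bool) → ℕ, Function.Injective f ∧
      (∀ (U : Finset (Fin n)) (x : Fin n → Bool), ∃! y : Fin n → Bool,
        (∀ i, i ∉ U → y i = x i) ∧ ∀ i ∈ U, f (flip y i) < f y) ∧
      (∀ x : Fin n → Bool, ∃ (m : ℕ) (v : ℕ → (Fin n → Bool)), m ≤ n ∧ v 0 = x ∧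
        (∀ t < m, ∃ i ∈ improving f (v t), v (t + 1) = flip (v t) i) ∧
        improving f (v m) = ∅) ∧
      1 - (1 / 2) ^ k ≤ prob f p (2 ^ k) x₀ [] := by
  obtain ⟨f, h1, h2, h3⟩ := H10.RR.slow_reg n k β hk hβ p hp0 hp1 hn ρ
    ⟨hρ.nonneg, hρ.anti, hρ.mono, hρ.big⟩ hp x₀
  have h2' : Pool.Agent.TH70.AR.AOF f := h2
  refine ⟨f, h1, h2, Pool.Agent.TH70.AR.short_path h2', ?_⟩
  rw [prob_eq]
  exact h3

end Pool.Agent.Results.MP_4d246d_lc.RegularRules
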